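import Pool.Agent.TH30.MK.Relative

/-!
# The nef cone conjecture over `Z` implies the one over `Z'` for `X → Z' → Z`

A `Variety` records what enters the nef cone conjecture for `(X/Z, Δ)`: `N¹(X/Z)_ℝ` with its
lattice, the action of `Aut(X/Z, Δ)`, the effective nef cone. `Variety.Q1` is the statement of Q1.

Let `X → Z' → Z` be a factorisation of the given contraction (for example `Z` a point, and
`X → Z'` any contraction), `φ` the class of the pull-back of a divisor on `Z'` ample over `Z`,
and `q : N¹(X/Z) → N¹(X/Z')` the projection (`IsRel`). `result`: Q1 for `(X/Z, Δ)` implies Q1 for
`(X/Z', Δ)`.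

Proof. Let the translates of the rational polyhedral cone `Π` cover the ample cone `C`. (1) The
orbit of `φ` has only finitely many points in `Π`: if `γ y = φ` with `y ∈ Π`, approach `y` from
inside `C`; by the finiteness of the set of minimal forms `ξ ∘ β` on `Π` one finds `β` in a finite
set with `ξ (β y) ≤ ξ φ`, so that `β y` is one of finitely many lattice points. (2) For `x ∈ C` the
half-line `x + t φ` lies in a rational polyhedral cone of the rational closure of `C`, so by the
Siegel property it meets only finitely many translates of `Π`, and one of them, `γ Π`, contains
`x + t φ` for arbitrarily large `t`; then it contains `φ`, and by (1) `γ = η γᵢ` with `η φ = φ` and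
`γᵢ` from a finite list. (3) So the stabiliser of `φ` covers `C + ℝ φ` by translates of one rational
polyhedral cone, modulo `φ`; this passes to the relatively ample cone, and Looijenga's theorem
applies.
-/

set_option autoImplicit false

namespace Pool.Agent.Results.MP_20d318_ag.RelativeFromAbsolute

open Pool.Agent.TH30.MK.Pres

/-- The nef cone conjecture for `X/Z` implies the nef cone conjecture for `X/Z'`, for every
factorisation `X → Z' → Z`. -/
theorem result (X R : Variety) (q : X.N → R.N) (φ : X.N) (h : IsRel X R q φ) (hX : X.Q1) : R.Q1 :=
  relative h hX

end Pool.Agent.Results.MP_20d318_ag.RelativeFromAbsolute
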